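import Mathlib

namespace Pool.Agent.H.MP_9f00ad_co

open Set Sum
open scoped Classical

variable {W W' α β : Type} {k : ℕ}

def Sub (f : Set W → ℤ) : Prop := ∀ X Y, f (X ∪ Y) + f (X ∩ Y) ≤ f X + f Y
def Md (f : Set W → ℤ) : Prop := ∀ X Y, f (X ∪ Y) + f (X ∩ Y) = f X + f Y
def Dep (f : Set W → ℤ) (S : Finset W) : Prop :=
  ∀ X Y : Set W, (∀ v ∈ S, v ∈ X ↔ v ∈ Y) → f X = f Y
def Small (k : ℕ) (f : Set W → ℤ) : Prop := Sub f ∧ ∃ S : Finset W, S.card ≤ k ∧ Dep f S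
def Poly (k : ℕ) (F : Set W → ℤ) : Prop :=
  ∃ (I : Type) (_ : Fintype I) (f : I → Set W → ℤ), (∀ i, Small k (f i)) ∧ ∀ Z, F Z = ∑ i, f i Z
def Ex (k : ℕ) (g : Set α → ℤ) : Prop :=
  ∃ (H : Type) (F : Set (α ⊕ H) → ℤ), Poly k F ∧ (∀ Z, g (inl ⁻¹' Z) ≤ F Z) ∧
    ∀ X, ∃ Z, inl ⁻¹' Z = X ∧ F Z = g X

def pb (ψ : W → W' ⊕ Prop) (Z : Set W') : Set W := {w | Sum.elim (· ∈ Z) id (ψ w)}

lemma pb_union (ψ : W → W' ⊕ Prop) (X Y : Set W') : pb ψ (X ∪ Y) = pb ψ X ∪ pb ψ Y := by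
  ext w
  simp only [pb, mem_union, mem_ofPred_eq]
  cases ψ w <;> simp

lemma pb_inter (ψ : W → W' ⊕ Prop) (X Y : Set W') : pb ψ (X ∩ Y) = pb ψ X ∩ pb ψ Y := by
  ext w
  simp only [pb, mem_inter_iff, mem_ofPred_eq]
  cases ψ w <;> simp

lemma Small.pb {f : Set W → ℤ} (h : Small k f) (ψ : W → W' ⊕ Prop) :
    Small k fun Z => f (pb ψ Z) := by
  obtain ⟨h1, S, hS, h2⟩ := h
  refine ⟨fun X Y => by simpa only [pb_union, pb_inter] using h1 _ _, (S.image ψ).toLeft,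
    (Finset.card_toLeft_le.trans Finset.card_image_le).trans hS, fun X Y h => h2 _ _ ?_⟩
  intro v hv
  simp only [MP_9f00ad_co.pb, mem_ofPred_eq]
  rcases e : ψ v with w | w
  · exact h w (Finset.mem_toLeft.2 (Finset.mem_image.2 ⟨v, hv, e⟩))
  · simp

lemma Small.compl {f : Set W → ℤ} (h : Small k f) : Small k fun Z => f Zᶜ := by
  obtain ⟨h1, S, hS, h2⟩ := h
  refine ⟨fun X Y => ?_, S, hS, fun X Y h => h2 _ _ fun v hv => not_congr (h v hv)⟩
  have := h1 Xᶜ Yᶜ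
  simp only [compl_union, compl_inter]
  linarith

lemma Poly.pb {F : Set W → ℤ} (h : Poly k F) (ψ : W → W' ⊕ Prop) : Poly k fun Z => F (pb ψ Z) := by
  obtain ⟨I, _, f, h1, h2⟩ := h
  exact ⟨I, inferInstance, fun i Z => f i (MP_9f00ad_co.pb ψ Z), fun i => (h1 i).pb ψ,
    fun Z => h2 _⟩

lemma Poly.pre {F : Set W → ℤ} (h : Poly k F) (e : W → W') : Poly k fun Z => F (e ⁻¹' Z) :=
  h.pb (inl ∘ e)

lemma Poly.compl {F : Set W → ℤ} (h : Poly k F) : Poly k fun Z => F Zᶜ := by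
  obtain ⟨I, _, f, h1, h2⟩ := h
  exact ⟨I, inferInstance, fun i Z => f i Zᶜ, fun i => (h1 i).compl, fun Z => h2 _⟩

lemma Poly.add {F G : Set W → ℤ} (h : Poly k F) (h' : Poly k G) : Poly k fun Z => F Z + G Z := by
  obtain ⟨I, _, f, h1, h2⟩ := h
  obtain ⟨J, _, g, h3, h4⟩ := h'
  exact ⟨I ⊕ J, inferInstance, Sum.elim f g, fun i => by cases i <;> simp [h1, h3],
    fun Z => by simp [h2, h4]⟩

lemma Small.ex {g : Set α → ℤ} (h : Small k g) : Ex k g :=
  ⟨Empty, fun Z => g (inl ⁻¹' Z),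
    Poly.pre ⟨Unit, inferInstance, fun _ => g, fun _ => h, fun Z => by simp⟩ inl, fun _ => le_rfl,
    fun X => ⟨inl '' X, preimage_image_eq _ inl_injective,
      congrArg g (preimage_image_eq _ inl_injective)⟩⟩

lemma Ex.pb {g : Set α → ℤ} (h : Ex k g) (ψ : α → β ⊕ Prop) : Ex k fun X => g (pb ψ X) := by
  obtain ⟨H, F, h1, h2, h3⟩ := h
  let ψ' : α ⊕ H → (β ⊕ H) ⊕ Prop := Sum.elim (fun a => Sum.map inl id (ψ a)) fun h => inl (inr h)
  have e : ∀ Z, inl ⁻¹' (MP_9f00ad_co.pb ψ' Z) = MP_9f00ad_co.pb ψ (inl ⁻¹' Z) := fun Z => by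
    ext a
    simp only [MP_9f00ad_co.pb, ψ', mem_preimage, mem_ofPred_eq, Sum.elim_inl]
    cases ψ a <;> simp
  refine ⟨H, _, h1.pb ψ', fun Z => by simpa only [e] using h2 (MP_9f00ad_co.pb ψ' Z), fun X => ?_⟩
  obtain ⟨Z, hZ, hF⟩ := h3 (MP_9f00ad_co.pb ψ X)
  refine ⟨{w | Sum.elim (· ∈ X) (fun h => inr h ∈ Z) w}, rfl, ?_⟩
  dsimp only
  rw [← hF]
  congr 1
  ext (a | a)
  · rw [← mem_preimage, e, ← mem_preimage (f := inl), hZ]
    rfl
  · rfl

lemma Ex.pre {g : Set α → ℤ} (h : Ex k g) (e : α → β) : Ex k fun X => g (e ⁻¹' X) :=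
  h.pb (inl ∘ e)

lemma Ex.compl {g : Set α → ℤ} (h : Ex k g) : Ex k fun X => g Xᶜ := by
  obtain ⟨H, F, h1, h2, h3⟩ := h
  refine ⟨H, _, h1.compl, fun Z => h2 Zᶜ, fun X => ?_⟩
  obtain ⟨Z, hZ, hF⟩ := h3 Xᶜ
  exact ⟨Zᶜ, by rw [preimage_compl, hZ, compl_compl], by rw [compl_compl, hF]⟩

lemma Ex.add {f g : Set α → ℤ} (h : Ex k f) (h' : Ex k g) : Ex k fun X => f X + g X := by
  obtain ⟨H, F, h1, h2, h3⟩ := h
  obtain ⟨K, G, h4, h5, h6⟩ := h'
  refine ⟨H ⊕ K, _, (h1.pre (Sum.map id inl)).add (h4.pre (Sum.map id inr)),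
    fun Z => add_le_add (h2 (Sum.map id inl ⁻¹' Z)) (h5 (Sum.map id inr ⁻¹' Z)), fun X => ?_⟩
  obtain ⟨Z, hZ, hF⟩ := h3 X
  obtain ⟨Y, hY, hG⟩ := h6 X
  refine ⟨{w | Sum.elim (· ∈ X) (Sum.elim (fun h => inr h ∈ Z) fun h => inr h ∈ Y) w}, rfl, ?_⟩
  dsimp only
  rw [← hF, ← hG]
  congr 2
  · ext (a | a)
    · rw [← hZ]; rfl
    · rfl
  · ext (a | a)
    · rw [← hY]; rfl
    · rfl

lemma Ex.inf {g : Set (α ⊕ β) → ℤ} (h : Ex k g) {f : Set α → ℤ} (h1 : ∀ Z, f (inl ⁻¹' Z) ≤ g Z)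
    (h2 : ∀ X, ∃ Z, inl ⁻¹' Z = X ∧ g Z ≤ f X) : Ex k f := by
  obtain ⟨H, F, h3, h4, h5⟩ := h
  refine ⟨β ⊕ H, _, h3.pre (Equiv.sumAssoc α β H),
    fun Z => (h1 (inl ⁻¹' (Equiv.sumAssoc α β H ⁻¹' Z))).trans (h4 _), fun X => ?_⟩
  obtain ⟨Z, hZ, hg⟩ := h2 X
  obtain ⟨Y, hY, hF⟩ := h5 Z
  refine ⟨(Equiv.sumAssoc α β H).symm ⁻¹' Y, by rw [← hZ, ← hY]; rfl, ?_⟩
  rw [Equiv.preimage_symm_preimage, hF]
  exact le_antisymm hg (hZ ▸ h1 Z)

lemma ex_const (c : ℤ) : Ex k fun _ : Set α => c :=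
  Small.ex ⟨fun _ _ => le_rfl, ∅, by simp, fun _ _ _ => rfl⟩

lemma ex_sum {ι : Type} (s : Finset ι) (f : ι → Set α → ℤ) (h : ∀ i ∈ s, Ex k (f i)) :
    Ex k fun X => ∑ i ∈ s, f i X := by
  induction s using Finset.induction_on with
  | empty => simpa using ex_const 0
  | insert a s ha ih =>
    simpa [Finset.sum_insert ha] using
      (h a (by simp)).add (ih fun i hi => h i (Finset.mem_insert_of_mem hi))

lemma ex_un (hk : 2 ≤ k) (c : ℤ) (v : α) : Ex k fun X => if v ∈ X then c else 0 :=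
  Small.ex ⟨fun X Y => by
    by_cases h : v ∈ X <;> by_cases h' : v ∈ Y <;> simp [h, h'], {v}, by simp; omega,
    fun X Y h => by simp [h v (by simp)]⟩

lemma ex_arc (hk : 2 ≤ k) (u v : α) : Ex k fun X => if u ∈ X ∧ v ∉ X then 1 else 0 :=
  Small.ex ⟨fun X Y => by
    by_cases h : v ∈ X <;> by_cases h' : v ∈ Y <;> by_cases h1 : u ∈ X <;>
      by_cases h2 : u ∈ Y <;> simp [h, h', h1, h2], {u, v}, Finset.card_le_two.trans hk,
    fun X Y h => by simp [h v (by simp), h u (by simp)]⟩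

lemma ex_arcs (hk : 2 ≤ k) {ι : Type} (s : Finset ι) (u v : ι → α) :
    Ex k fun X => ((s.filter fun i => u i ∈ X ∧ v i ∉ X).card : ℤ) := by
  simpa using ex_sum s _ fun i _ => ex_arc hk (u i) (v i)

lemma sandwich (s : Finset W) : ∀ f g : Set W → ℤ, Sub f → Sub g → Dep f s →
    (∀ Z, 0 ≤ f Z + g Z) → ∃ m, Md m ∧ Dep m s ∧ (∀ Z, m Z ≤ f Z) ∧ ∀ Z, 0 ≤ m Z + g Z := by
  induction s using Finset.induction_on with
  | empty => exact fun f g _ _ hd h => ⟨f, fun X Y => by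
      rw [hd (X ∪ Y) X (by simp), hd (X ∩ Y) Y (by simp)], hd, fun _ => le_rfl, h⟩
  | insert v s hv ih =>
    intro f g hf hg hd h
    have key : ∀ X Y, 0 ≤ f (insert v X) + g (X \ {v}) + (f (Y \ {v}) + g (insert v Y)) := by
      intro X Y
      have a := hf (insert v X) (Y \ {v})
      have b := hg (X \ {v}) (insert v Y)
      have c := h (insert v X ∪ Y \ {v})
      have d := h (insert v X ∩ (Y \ {v}))
      have e1 : X \ {v} ∪ insert v Y = insert v X ∪ Y \ {v} := by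
        ext w; by_cases hw : w = v <;> simp [hw]
      have e2 : X \ {v} ∩ insert v Y = insert v X ∩ (Y \ {v}) := by
        ext w; by_cases hw : w = v <;> simp [hw]
      rw [e1, e2] at b
      linarith
    obtain ⟨t, ⟨X0, hX0⟩, ht⟩ := Int.exists_least_of_bdd
      (P := fun t => ∃ X, t = f (insert v X) + g (X \ {v}))
      ⟨-(f (∅ \ {v}) + g (insert v ∅)), by rintro _ ⟨X, rfl⟩; linarith [key X ∅]⟩ ⟨_, ∅, rfl⟩
    have sb : ∀ (f : Set W → ℤ) (t : ℤ), Sub f →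
        Sub fun Z => min (f (Z \ {v})) (f (insert v Z) + t) := fun f t hf X Y => by
      have a := hf (X \ {v}) (Y \ {v})
      have b := hf (X \ {v}) (insert v Y)
      have c := hf (insert v X) (Y \ {v})
      have d := hf (insert v X) (insert v Y)
      have e1 : X \ {v} ∪ Y \ {v} = (X ∪ Y) \ {v} := by
        ext w; by_cases hw : w = v <;> simp [hw]
      have e2 : X \ {v} ∩ (Y \ {v}) = (X ∩ Y) \ {v} := by
        ext w; by_cases hw : w = v <;> simp [hw]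
      have e3 : X \ {v} ∪ insert v Y = insert v (X ∪ Y) := by
        ext w; by_cases hw : w = v <;> simp [hw]
      have e4 : X \ {v} ∩ insert v Y = (X ∩ Y) \ {v} := by
        ext w; by_cases hw : w = v <;> simp [hw]
      have e5 : insert v X ∪ Y \ {v} = insert v (X ∪ Y) := by
        ext w; by_cases hw : w = v <;> simp [hw]
      have e6 : insert v X ∩ (Y \ {v}) = (X ∩ Y) \ {v} := by
        ext w; by_cases hw : w = v <;> simp [hw]
      have e7 : insert v X ∪ insert v Y = insert v (X ∪ Y) := by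
        ext w; by_cases hw : w = v <;> simp [hw]
      have e8 : insert v X ∩ insert v Y = insert v (X ∩ Y) := by
        ext w; by_cases hw : w = v <;> simp [hw]
      rw [e1, e2] at a
      rw [e3, e4] at b
      rw [e5, e6] at c
      rw [e7, e8] at d
      dsimp only
      omega
    obtain ⟨m, m1, m2, m3, m4⟩ := ih _ _ (sb f (-t) hf) (sb g t hg) (fun X Y hXY => by
      have a : f (X \ {v}) = f (Y \ {v}) := hd _ _ fun w hw => by
        by_cases e : w = v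
        · simp [e]
        · simp [e, hXY w (by simpa [e] using hw)]
      have b : f (insert v X) = f (insert v Y) := hd _ _ fun w hw => by
        by_cases e : w = v
        · simp [e]
        · simp [e, hXY w (by simpa [e] using hw)]
      simp only [a, b]) (fun Z => by
      have a := ht _ ⟨Z, rfl⟩
      have b := key X0 Z
      have c := h (Z \ {v})
      have d := h (insert v Z)
      omega)
    refine ⟨fun Z => m Z + if v ∈ Z then t else 0, fun X Y => ?_, fun X Y hXY => ?_, fun Z => ?_,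
      fun Z => ?_⟩
    · have := m1 X Y
      by_cases h : v ∈ X <;> by_cases h' : v ∈ Y <;> simp [h, h'] <;> linarith
    · simp only [m2 X Y fun w hw => hXY w (Finset.mem_insert_of_mem hw), hXY v (by simp)]
    · have := m3 Z
      by_cases h : v ∈ Z
      · rw [insert_eq_of_mem h] at this
        simp only [h, if_true]
        omega
      · rw [sdiff_singleton_eq_self h] at this
        simp only [h, if_false]
        omega
    · have := m4 Z
      by_cases h : v ∈ Z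
      · rw [insert_eq_of_mem h] at this
        simp only [h, if_true]
        omega
      · rw [sdiff_singleton_eq_self h] at this
        simp only [h, if_false]
        omega

lemma sub_sum {I : Type} (s : Finset I) (f : I → Set W → ℤ) (h : ∀ i, Sub (f i)) :
    Sub fun Z => ∑ i ∈ s, f i Z := fun X Y => by
  simp only [← Finset.sum_add_distrib]
  exact Finset.sum_le_sum fun i _ => h i X Y

lemma decomp {I : Type} (f : I → Set W → ℤ) (S : I → Finset W) (hs : ∀ i, Sub (f i))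
    (hd : ∀ i, Dep (f i) (S i)) (s : Finset I) : ∀ g : Set W → ℤ, Sub g →
    (∀ Z, 0 ≤ ∑ i ∈ s, f i Z + g Z) → ∃ m : I → Set W → ℤ,
      (∀ i ∈ s, Md (m i) ∧ Dep (m i) (S i) ∧ ∀ Z, m i Z ≤ f i Z) ∧
        ∀ Z, 0 ≤ ∑ i ∈ s, m i Z + g Z := by
  induction s using Finset.induction_on with
  | empty => exact fun g _ h => ⟨f, by simp, h⟩
  | insert a s ha ih =>
    intro g hg h
    obtain ⟨m, m1, m2, m3, m4⟩ := sandwich (S a) (f a) (fun Z => ∑ i ∈ s, f i Z + g Z) (hs a)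
      (fun X Y => by linarith [sub_sum s f hs X Y, hg X Y]) (hd a)
      (fun Z => by simpa [Finset.sum_insert ha, add_assoc] using h Z)
    obtain ⟨n, n1, n2⟩ := ih (fun Z => m Z + g Z) (fun X Y => by linarith [m1 X Y, hg X Y])
      (fun Z => by linarith [m4 Z])
    refine ⟨Function.update n a m, fun i hi => ?_, fun Z => ?_⟩
    · by_cases e : i = a
      · subst e
        simpa using ⟨m1, m2, m3⟩
      · simpa [e] using n1 i (by simpa [e] using hi)
    · rw [Finset.sum_insert ha, Function.update_self, Finset.sum_congr rfl fun i hi => by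
        rw [Function.update_of_ne (ne_of_mem_of_not_mem hi ha)]]
      linarith [n2 Z]

end Pool.Agent.H.MP_9f00ad_co
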