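import Pool.Agent.H.MP_9f00ad_co.A

namespace Pool.Agent.H.MP_9f00ad_co

open Set Sum
open scoped Classical

variable {W α β : Type} {k : ℕ}

lemma exists_max {F r : Set W → ℤ} (hF : Sub F) (U : Finset W) (hU : Dep F U)
    (h1 : ∀ X Z, X ⊆ Z → r X ≤ F Z) (X : Set W) (h2 : ∃ Z, X ⊆ Z ∧ F Z ≤ r X) :
    ∃ Z, X ⊆ Z ∧ F Z = r X ∧ ∀ Y, X ⊆ Y → F Y ≤ r X → Y ⊆ Z := by
  obtain ⟨n, ⟨Z, ⟨hZ, hZ'⟩, rfl⟩, hm⟩ := Int.exists_greatest_of_bdd
    (P := fun n => ∃ Z, (X ⊆ Z ∧ F Z ≤ r X) ∧ n = (U.filter (· ∈ Z)).card)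
    ⟨U.card, by rintro _ ⟨Z, -, rfl⟩; exact_mod_cast Finset.card_filter_le _ _⟩
    (h2.elim fun Z h => ⟨_, Z, h, rfl⟩)
  refine ⟨Z ∪ (↑U)ᶜ, hZ.trans subset_union_left, ?_, fun Y hY hY' v hv => ?_⟩
  · rw [hU _ Z fun v hv => by simp [hv]]
    exact hZ'.antisymm (h1 _ _ hZ)
  · by_cases e : v ∈ U
    · have a := hF Z Y
      have b := h1 X (Z ∩ Y) (subset_inter hZ hY)
      have c := hm _ ⟨Z ∪ Y, ⟨hZ.trans subset_union_left, by linarith⟩, rfl⟩
      have d := Finset.eq_of_subset_of_card_le (s := U.filter (· ∈ Z)) (t := U.filter (· ∈ Z ∪ Y))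
        (fun w hw => by
          rw [Finset.mem_filter] at hw ⊢
          exact ⟨hw.1, .inl hw.2⟩) (by convert Int.ofNat_le.1 c)
      have : v ∈ U.filter (· ∈ Z) := d ▸ Finset.mem_filter.2 ⟨e, .inr hv⟩
      exact .inl (Finset.mem_filter.1 this).2
    · exact .inr e

lemma core {g : Set α → ℤ} (hg : Ex k g) (mono : Monotone g) (h0 : g ∅ = 0) (E : Finset α)
    (J : Finset β) (a b c : β → α) (hE : ∀ j ∈ J, a j ∈ E ∧ b j ∈ E ∧ c j ∈ E)
    (hd : ∀ j ∈ J, a j ≠ b j ∧ a j ≠ c j ∧ b j ≠ c j) (h1 : ∀ p ∈ E, g {p} = 1)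
    (h2 : ∀ p ∈ E, ∀ q ∈ E, p ≠ q → g {p, q} = 2) (hl : ∀ j ∈ J, g {a j, b j, c j} = 2)
    (h3 : ∀ j ∈ J, ∀ i ∈ J, j ≠ i → 3 ≤ g ({a j, b j, c j} ∪ {a i, b i, c i})) :
    J.card ≤ E.card * k := by
  obtain ⟨H, F, ⟨I, _, f, hf, hF⟩, lo, at'⟩ := hg
  choose S hS hD using fun i => (hf i).2
  have Fs : Sub F := by
    have := sub_sum Finset.univ f fun i => (hf i).1
    intro X Y
    simpa only [hF] using this X Y
  have lo' : ∀ (X : Set α) Z, inl '' X ⊆ Z → g X ≤ F Z := fun X Z h =>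
    (mono (image_subset_iff.1 h)).trans (lo Z)
  obtain ⟨m, hm, hm0⟩ := decomp f S (fun i => (hf i).1) hD Finset.univ (fun _ => 0)
    (fun _ _ => le_rfl) fun Z => by
      rw [add_zero, ← hF, ← h0]
      exact lo' _ _ (by simp)
  simp only [Finset.mem_univ, true_implies, add_zero] at hm hm0
  have mx : ∀ X : Set α, ∃ Z, inl '' X ⊆ Z ∧ F Z = g X ∧
      ∀ Y, inl '' X ⊆ Y → F Y ≤ g X → Y ⊆ Z := fun X => by
    have := exists_max (r := fun X => g (inl ⁻¹' X)) Fs (Finset.univ.biUnion S) (fun X Y h => by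
      rw [hF, hF]
      exact Finset.sum_congr rfl fun i _ => hD i _ _ fun v hv =>
        h v (Finset.mem_biUnion.2 ⟨i, Finset.mem_univ _, hv⟩))
      (fun X Z h => (mono (preimage_mono h)).trans (lo Z)) (inl '' X) (by
        obtain ⟨Z, hZ, e⟩ := at' X
        exact ⟨Z, image_subset_iff.2 hZ.ge, by rw [e, preimage_image_eq _ inl_injective]⟩)
    simpa only [preimage_image_eq _ inl_injective] using this
  choose Mx M1 M2 M3 using mx
  have Mm : ∀ X Y, X ⊆ Y → Mx X ⊆ Mx Y := fun X Y h => by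
    have a := Fs (Mx X) (Mx Y)
    have b := lo' X (Mx X ∩ Mx Y) (subset_inter (M1 X) ((image_mono h).trans (M1 Y)))
    rw [M2, M2] at a
    exact subset_union_left.trans (M3 Y _ ((M1 Y).trans subset_union_right) (by linarith))
  have Mi : ∀ X Y T, T ⊆ X → T ⊆ Y → g X + g Y ≤ g (X ∪ Y) + g T → Mx X ∩ Mx Y ⊆ Mx T := by
    intro X Y T hX hY h
    have a := Fs (Mx X) (Mx Y)
    have b := lo' (X ∪ Y) (Mx X ∪ Mx Y) (by
      rw [image_union]
      exact union_subset_union (M1 X) (M1 Y))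
    rw [M2, M2] at a
    exact M3 T _ (subset_inter ((image_mono hX).trans (M1 X)) ((image_mono hY).trans (M1 Y)))
      (by linarith)
  have PP : ∀ p ∈ E, ∀ q ∈ E, p ≠ q → Mx {p} ∩ Mx {q} = Mx ∅ := fun p hp q hq h =>
    (Mi _ _ _ (empty_subset _) (empty_subset _) (by
      rw [h1 p hp, h1 q hq, h0, singleton_union, h2 p hp q hq h]; rfl)).antisymm
      (subset_inter (Mm _ _ (empty_subset _)) (Mm _ _ (empty_subset _)))
  set h : I → Set (α ⊕ H) → ℤ := fun i Z => f i Z - m i Z with hh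
  set μ : Set (α ⊕ H) → ℤ := fun Z => ∑ i, m i Z with hμ
  have hn : ∀ i Z, 0 ≤ h i Z := fun i Z => sub_nonneg.2 ((hm i).2.2 Z)
  have hdep : ∀ i, Dep (h i) (S i) := fun i X Y e => by
    simp only [hh, hD i X Y e, (hm i).2.1 X Y e]
  have spl : ∀ Z, F Z = μ Z + ∑ i, h i Z := fun Z => by
    simp [hF, hh, hμ]
  have μm : Md μ := fun X Y => by
    simp only [hμ, ← Finset.sum_add_distrib]
    exact Finset.sum_congr rfl fun i _ => (hm i).1 X Y
  have μ0 : ∀ Z, 0 ≤ μ Z := hm0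
  clear_value h μ
  have sn : ∀ Z, 0 ≤ ∑ i, h i Z := fun Z => Finset.sum_nonneg fun i _ => hn i Z
  have B0 := spl (Mx ∅)
  rw [M2, h0] at B0
  have B1 : μ (Mx ∅) = 0 := by linarith [μ0 (Mx ∅), sn (Mx ∅)]
  have B2 : ∀ i, h i (Mx ∅) = 0 := fun i =>
    (Finset.sum_eq_zero_iff_of_nonneg fun i _ => hn i _).1 (by linarith) i (Finset.mem_univ _)
  have T : ∀ p ∈ E, ∃ T : Finset (α ⊕ H), T.card ≤ k ∧ ∀ i, h i (Mx {p}) ≠ 0 → S i ⊆ T := by
    intro p hp
    by_cases e : ∃ i, h i (Mx {p}) ≠ 0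
    · obtain ⟨i, hi⟩ := e
      refine ⟨S i, hS i, fun j hj => ?_⟩
      by_cases e : j = i
      · rw [e]
      · have a := spl (Mx {p})
        rw [M2, h1 p hp] at a
        have b := Finset.sum_le_sum_of_subset_of_nonneg (f := fun i => h i (Mx {p}))
          (Finset.subset_univ {j, i}) fun i _ _ => hn i _
        rw [Finset.sum_pair e] at b
        have := hn i (Mx {p})
        have := hn j (Mx {p})
        have := μ0 (Mx {p})
        omega
    · exact ⟨∅, by simp, fun i hi => (e ⟨i, hi⟩).elim⟩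
  choose! T T1 T2 using T
  have key : ∀ j ∈ J, ∃ p ∈ ({a j, b j, c j} : Set α), p ∈ E ∧ ∃ v ∈ T p,
      v ∈ Mx {a j, b j, c j} ∧ v ∉ Mx {p} := by
    intro j hj
    by_contra hc
    push Not at hc
    obtain ⟨ea, eb, ec⟩ := hE j hj
    obtain ⟨ab, ac, bc⟩ := hd j hj
    have e := spl (Mx {a j, b j, c j})
    rw [M2, hl j hj] at e
    have sa := Mm {a j} {a j, b j, c j} (by simp)
    have sb := Mm {b j} {a j, b j, c j} (by simp)
    have sc := Mm {c j} {a j, b j, c j} (by simp)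
    have s0 := Mm ∅ {a j} (by simp)
    have pa := spl (Mx {a j})
    have pb := spl (Mx {b j})
    have pc := spl (Mx {c j})
    rw [M2, h1 _ ea] at pa
    rw [M2, h1 _ eb] at pb
    rw [M2, h1 _ ec] at pc
    have gd : ∀ p ∈ ({a j, b j, c j} : Set α), p ∈ E → ∀ i, h i (Mx {p}) ≠ 0 →
        ∀ v ∈ S i, v ∈ Mx {p} ↔ v ∈ Mx {a j, b j, c j} := fun p hp hp' i hi v hv =>
      ⟨fun h => Mm _ _ (singleton_subset_iff.2 hp) h, hc p hp hp' v (T2 p hp' i hi hv)⟩
    have two : ∀ p ∈ ({a j, b j, c j} : Set α), p ∈ E → ∀ q ∈ ({a j, b j, c j} : Set α), q ∈ E →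
        p ≠ q → ∀ i, h i (Mx {p}) = 0 ∨ h i (Mx {q}) = 0 := fun p hp hp' q hq hq' pq i => by
      by_contra hc
      push Not at hc
      refine hc.1 ((hdep i _ _ fun v hv => ?_).trans (B2 i))
      rw [← PP p hp' q hq' pq, mem_inter_iff, gd p hp hp' i hc.1 v hv, gd q hq hq' i hc.2 v hv,
        and_self]
    have k1 : ∑ i, (h i (Mx {a j}) + h i (Mx {b j}) + h i (Mx {c j})) ≤
        ∑ i, h i (Mx {a j, b j, c j}) := Finset.sum_le_sum fun i _ => by
      have g1 := fun e => hdep i _ _ (gd (a j) (by simp) ea i e)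
      have g2 := fun e => hdep i _ _ (gd (b j) (by simp) eb i e)
      have g3 := fun e => hdep i _ _ (gd (c j) (by simp) ec i e)
      have t1 := two (a j) (by simp) ea (b j) (by simp) eb ab i
      have t2 := two (a j) (by simp) ea (c j) (by simp) ec ac i
      have t3 := two (b j) (by simp) eb (c j) (by simp) ec bc i
      have := hn i (Mx {a j, b j, c j})
      omega
    simp only [Finset.sum_add_distrib] at k1
    have q1 := μm (Mx {a j}) (Mx {b j})
    have q2 := μm (Mx {a j} ∪ Mx {b j}) (Mx {c j})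
    have q3 := μm (Mx {a j} ∪ Mx {b j} ∪ Mx {c j})
      (Mx ∅ ∪ Mx {a j, b j, c j} \ (Mx {a j} ∪ Mx {b j} ∪ Mx {c j}))
    rw [PP _ ea _ eb ab] at q1
    rw [union_inter_distrib_right, PP _ ea _ ec ac, PP _ eb _ ec bc, union_self] at q2
    have u1 : Mx {a j} ∪ Mx {b j} ∪ Mx {c j} ∪
        (Mx ∅ ∪ Mx {a j, b j, c j} \ (Mx {a j} ∪ Mx {b j} ∪ Mx {c j})) = Mx {a j, b j, c j} := by
      ext v
      have := @sa v
      have := @sb v
      have := @sc v
      have := @s0 v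
      simp only [mem_union, mem_sdiff]
      tauto
    have u2 : (Mx {a j} ∪ Mx {b j} ∪ Mx {c j}) ∩
        (Mx ∅ ∪ Mx {a j, b j, c j} \ (Mx {a j} ∪ Mx {b j} ∪ Mx {c j})) = Mx ∅ := by
      ext v
      have := @s0 v
      simp only [mem_union, mem_sdiff, mem_inter_iff]
      tauto
    rw [u1, u2] at q3
    linarith [μ0 (Mx ∅ ∪ Mx {a j, b j, c j} \ (Mx {a j} ∪ Mx {b j} ∪ Mx {c j}))]
  rcases J.eq_empty_or_nonempty with rfl | ⟨j0, -⟩
  · simp
  have : Nonempty α := ⟨a j0⟩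
  choose! p p1 p2 v v1 v2 v3 using key
  calc J.card ≤ (E.sigma T).card :=
        Finset.card_le_card_of_injOn (fun j => ⟨p j, v j⟩)
          (fun j hj => Finset.mem_sigma.2 ⟨p2 j hj, v1 j hj⟩) fun j hj i hi e => by
            by_contra hne
            simp only [Sigma.mk.injEq, heq_eq_eq] at e
            refine v3 j hj (Mi _ _ {p j} (singleton_subset_iff.2 (p1 j hj))
              (singleton_subset_iff.2 (e.1 ▸ p1 i hi)) ?_ ⟨v2 j hj, e.2 ▸ v2 i hi⟩)
            rw [hl j hj, hl i hi, h1 _ (p2 j hj)]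
            linarith [h3 j hj i hi hne]
    _ ≤ E.card * k := by
        rw [Finset.card_sigma]
        simpa using Finset.sum_le_card_nsmul E _ k T1

end Pool.Agent.H.MP_9f00ad_co
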