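import Pool.Agent.H.MP_9f00ad_co.B

namespace Pool.Agent.H.MP_9f00ad_co

open Set
open scoped Classical

def Linked (D : ℕ → ℕ → Prop) (X Y : Set ℕ) : Prop :=
  ∃ P : Set (List ℕ), (∀ p ∈ P, p ≠ [] ∧ p.Nodup ∧ p.IsChain D) ∧
    (∀ p ∈ P, ∀ q ∈ P, p ≠ q → p.Disjoint q) ∧
    X = {x | ∃ p ∈ P, p.head? = some x} ∧ Y = {y | ∃ p ∈ P, p.getLast? = some y}

noncomputable def rk (M : Matroid ℕ) (X : Set ℕ) : ℤ := (M.eRk X).toNat

variable {M : Matroid ℕ} {D : ℕ → ℕ → Prop}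

lemma eRk_eq (h : M.E.Finite) (X : Set ℕ) : ∃ n : ℕ, M.eRk X = n ∧ rk M X = n := by
  have : M.eRk X ≠ ⊤ := by
    rw [← M.eRk_inter_ground]
    exact ((M.eRk_le_encard _).trans_lt (h.inter_of_right X).encard_lt_top).ne
  obtain ⟨n, hn⟩ := ENat.ne_top_iff_exists.1 this
  exact ⟨n, hn.symm, by simp [rk, ← hn]⟩

lemma rk_sub (h : M.E.Finite) : Sub (rk M) := fun X Y => by
  have := M.eRk_inter_add_eRk_union_le X Y
  obtain ⟨a, a1, a2⟩ := eRk_eq h X
  obtain ⟨b, b1, b2⟩ := eRk_eq h Y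
  obtain ⟨c, c1, c2⟩ := eRk_eq h (X ∪ Y)
  obtain ⟨d, d1, d2⟩ := eRk_eq h (X ∩ Y)
  rw [a1, b1, c1, d1] at this
  rw [a2, b2, c2, d2]
  norm_cast at this ⊢
  omega

lemma rk_mono (h : M.E.Finite) : Monotone (rk M) := fun X Y hXY => by
  have := M.eRk_mono hXY
  obtain ⟨a, a1, a2⟩ := eRk_eq h X
  obtain ⟨b, b1, b2⟩ := eRk_eq h Y
  rw [a1, b1] at this
  rw [a2, b2]
  exact_mod_cast this

lemma rk_ground (M : Matroid ℕ) (X : Set ℕ) : rk M (X ∩ M.E) = rk M X := by simp [rk]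

lemma rk_basis {I X : Set ℕ} (h : M.IsBasis' I X) : rk M X = I.ncard := by
  rw [rk, h.eRk_eq_encard]
  rfl

lemma rk_indep {I : Set ℕ} (h : M.Indep I) : rk M I = I.ncard := rk_basis h.isBasis_self.isBasis'

lemma rk_ge (hM : M.E.Finite) {I X : Set ℕ} (h : M.Indep I) (hX : I ⊆ X) :
    (I.ncard : ℤ) ≤ rk M X := rk_indep h ▸ rk_mono hM hX

lemma rk_union_le (hM : M.E.Finite) (X : Set ℕ) (Y : Finset ℕ) :
    rk M (X ∪ Y) ≤ rk M X + Y.card := by
  have := M.eRk_union_le_eRk_add_encard X Y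
  obtain ⟨a, a1, a2⟩ := eRk_eq hM X
  obtain ⟨b, b1, b2⟩ := eRk_eq hM (X ∪ Y)
  rw [a1, b1, encard_coe_eq_coe_finsetCard] at this
  rw [a2, b2]
  exact_mod_cast this

lemma walk {Z R : Set ℕ} (h : ∀ u v, D u v → u ∈ R → v ∈ Z) : ∀ (l : List ℕ) (a : ℕ),
    (a :: l).IsChain D → a ∈ Z →
      ∃ w ∈ a :: l, w ∈ Z \ R ∨ (w ∈ R ∧ (a :: l).getLast? = some w)
  | [], a, _, ha => ⟨a, by simp, by by_cases e : a ∈ R <;> simp [e, ha]⟩
  | b :: l, a, hc, ha => by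
    by_cases e : a ∈ R
    · rw [List.isChain_cons_cons] at hc
      obtain ⟨w, h1, h2⟩ := walk h l b hc.2 (h _ _ hc.1 e)
      exact ⟨w, List.mem_cons_of_mem _ h1, by simpa using h2⟩
    · exact ⟨a, by simp, .inl ⟨ha, e⟩⟩

lemma cut_ge (hM : M.E.Finite) {X Y R : Set ℕ} {Z : Finset ℕ} (hL : Linked D X Y) (hY : M.Indep Y)
    (hX : X ⊆ Z) (h : ∀ u v, D u v → u ∈ R → v ∈ Z) :
    (X.ncard : ℤ) ≤ (Z.filter (· ∉ R)).card + rk M R := by
  obtain ⟨P, h1, h2, h3, h4⟩ := hL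
  have : ∀ x ∈ X, ∃ p ∈ P, p.head? = some x ∧ ∃ w ∈ p, w ∈ (Z : Set ℕ) \ R ∪ Y ∩ R := by
    intro x hx
    obtain ⟨p, hp, e⟩ : ∃ p ∈ P, p.head? = some x := by simpa [h3] using hx
    obtain ⟨l, rfl⟩ : ∃ l, p = x :: l := List.head?_eq_some_iff.1 e
    obtain ⟨w, w1, w2⟩ := walk (Z := Z) h l x (h1 _ hp).2.2 (hX hx)
    exact ⟨_, hp, e, w, w1, w2.imp id fun h => ⟨h4 ▸ ⟨_, hp, h.2⟩, h.1⟩⟩
  choose! p p1 p2 w w1 w2 using this
  have fY : (Y ∩ R).Finite := (hM.subset hY.subset_ground).inter_of_left _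
  have a := ncard_le_ncard_of_injOn w w2 (fun x hx y hy e => by
    by_cases e' : p x = p y
    · have := p2 x hx
      rwa [e', p2 y hy, Option.some.injEq, eq_comm] at this
    · exact (h2 _ (p1 x hx) _ (p1 y hy) e' (w1 x hx) (e ▸ w1 y hy)).elim)
    ((Z.finite_toSet.sdiff).union fY)
  have b := ncard_union_le ((Z : Set ℕ) \ R) (Y ∩ R)
  have c := rk_ge hM (hY.inter_right R) inter_subset_right
  have d : ((Z : Set ℕ) \ R).ncard = (Z.filter (· ∉ R)).card := by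
    rw [← ncard_coe_finset]
    congr 1
    ext
    simp
  omega

def Tm (D : ℕ → ℕ → Prop) (p : List ℕ) : Prop :=
  p.IsChain D ∧ ∀ y, p.getLast? = some y → ∀ v, ¬ D y v

lemma Tm.suf {l p : List ℕ} {a : ℕ} (h : Tm D (l ++ a :: p)) : Tm D (a :: p) :=
  ⟨h.1.right_of_append, fun y hy => h.2 y (by rw [List.getLast?_append, hy]; rfl)⟩

lemma Tm.uniq (hD : ∀ u v w, D u v → D u w → v = w) : ∀ (l l' : List ℕ) (a : ℕ),
    Tm D (a :: l) → Tm D (a :: l') → l = l'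
  | [], [], _, _, _ => rfl
  | [], b :: l, a, h, h' => (h.2 a rfl b (List.isChain_cons_cons.1 h'.1).1).elim
  | b :: l, [], a, h, h' => (h'.2 a rfl b (List.isChain_cons_cons.1 h.1).1).elim
  | b :: l, c :: l', a, h, h' => by
    obtain rfl := hD _ _ _ (List.isChain_cons_cons.1 h.1).1 (List.isChain_cons_cons.1 h'.1).1
    rw [Tm.uniq hD l l' b (Tm.suf (l := [a]) h) (Tm.suf (l := [a]) h')]

lemma Tm.nodup (hD : ∀ u v w, D u v → D u w → v = w) : ∀ l : List ℕ, Tm D l → l.Nodup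
  | [], _ => List.nodup_nil
  | [a], _ => List.nodup_singleton a
  | a :: b :: l, h => by
    refine List.nodup_cons.2 ⟨fun ha => ?_, Tm.nodup hD _ (Tm.suf (l := [a]) h)⟩
    obtain ⟨s, t, e⟩ := List.append_of_mem ha
    have := Tm.uniq hD _ _ a h (Tm.suf (l := a :: s) (p := t) (by rwa [e] at h))
    rw [e] at this
    have := congrArg List.length this
    simp at this
    omega

lemma Tm.last (hD : ∀ u v w, D u v → D u w → v = w) {p q : List ℕ} (hp : Tm D p) (hq : Tm D q)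
    {v : ℕ} (h1 : v ∈ p) (h2 : v ∈ q) : p.getLast? = q.getLast? := by
  obtain ⟨s, t, rfl⟩ := List.append_of_mem h1
  obtain ⟨s', t', rfl⟩ := List.append_of_mem h2
  rw [Tm.uniq hD _ _ v hp.suf hq.suf]
  rw [List.getLast?_append, List.getLast?_append, List.getLast?_cons]
  rfl

lemma link_of (hD : ∀ u v w, D u v → D u w → v = w) {X Y : Set ℕ} (hY : ∀ y ∈ Y, ∀ v, ¬ D y v)
    (h : ∀ y ∈ Y, ∃ x ∈ X, Relation.ReflTransGen D x y) :
    ∃ X' ⊆ X, Linked D X' Y ∧ Y.ncard ≤ X'.ncard := by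
  have : ∀ y ∈ Y, ∃ x ∈ X, ∃ l, Tm D (x :: l) ∧ (x :: l).getLast? = some y := fun y hy => by
    obtain ⟨x, hx, e⟩ := h y hy
    obtain ⟨l, l1, l2⟩ := List.exists_isChain_cons_of_relationReflTransGen e
    have : (x :: l).getLast? = some y := by rw [← l2]; exact List.getLast?_eq_some_getLast _
    exact ⟨x, hx, l, ⟨l1, fun z hz => by
      rw [this, Option.some.injEq] at hz
      exact hz ▸ hY y hy⟩, this⟩
  choose! x x1 l l1 l2 using this
  refine ⟨x '' Y, image_subset_iff.2 x1, ⟨(fun y => x y :: l y) '' Y, ?_, ?_, ?_, ?_⟩, ?_⟩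
  · rintro _ ⟨y, hy, rfl⟩
    exact ⟨by simp, (l1 y hy).nodup hD _, (l1 y hy).1⟩
  · rintro _ ⟨y, hy, rfl⟩ _ ⟨z, hz, rfl⟩ e v h1 h2
    have := (l1 y hy).last hD (l1 z hz) h1 h2
    rw [l2 y hy, l2 z hz, Option.some.injEq] at this
    exact e (by rw [this])
  · ext
    simp
  · ext y
    simp only [mem_ofPred_eq, exists_mem_image]
    exact ⟨fun hy => ⟨y, hy, l2 y hy⟩, fun ⟨z, hz, e⟩ => by
      rw [l2 z hz, Option.some.injEq] at e
      exact e ▸ hz⟩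
  · refine (InjOn.ncard_image fun y hy z hz e => ?_).ge
    have := (l1 y hy).last hD (l1 z hz) (v := x y) (by simp) (by simp [e])
    rwa [l2 y hy, l2 z hz, Option.some.injEq] at this

lemma Linked.mono {D' : ℕ → ℕ → Prop} (h : ∀ u v, D u v → D' u v) {X Y : Set ℕ}
    (hL : Linked D X Y) : Linked D' X Y := by
  obtain ⟨P, h1, h2⟩ := hL
  exact ⟨P, fun p hp => ⟨(h1 p hp).1, (h1 p hp).2.1, (h1 p hp).2.2.imp h⟩, h2⟩

def Cond (M : Matroid ℕ) (X : Finset ℕ) (m : ℤ) (D : Finset (ℕ × ℕ)) (S : Finset ℕ) : Prop :=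
  ∀ Z R : Finset ℕ, X ⊆ Z → (∀ e ∈ D, e.1 ∈ R → e.2 ∈ Z) → m ≤ (Z \ R).card + rk M (R ∩ S)

lemma card_cross (Z R Z' R' : Finset ℕ) (u : ℕ) :
    ((Z ∪ Z') \ (R ∪ R')).card + ((Z ∩ Z') \ ((R ∩ R').erase u)).card ≤
      (Z \ R).card + (Z' \ R').card + 1 := by
  have a := Finset.card_union_add_card_inter (Z \ R) (Z' \ R')
  have b := Finset.card_union_add_card_inter ((Z ∪ Z') \ (R ∪ R')) ((Z ∩ Z') \ (R ∩ R'))
  have c : ((Z ∩ Z') \ ((R ∩ R').erase u)).card ≤ (insert u ((Z ∩ Z') \ (R ∩ R'))).card :=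
    Finset.card_le_card fun v => by simp; tauto
  have d := Finset.card_insert_le u ((Z ∩ Z') \ (R ∩ R'))
  have e : ((Z ∪ Z') \ (R ∪ R') ∪ (Z ∩ Z') \ (R ∩ R')).card ≤ (Z \ R ∪ Z' \ R').card :=
    Finset.card_le_card fun v => by simp; tauto
  have f : ((Z ∪ Z') \ (R ∪ R') ∩ ((Z ∩ Z') \ (R ∩ R'))).card ≤ (Z \ R ∩ (Z' \ R')).card :=
    Finset.card_le_card fun v => by simp; tauto
  omega

lemma menger (hM : M.E.Finite) (X : Finset ℕ) (m : ℤ) (n : ℕ) : ∀ (D : Finset (ℕ × ℕ))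
    (S : Finset ℕ), D.card + S.card = n → Cond M X m D S → ∃ X' ⊆ (X : Set ℕ), ∃ Y, M.Indep Y ∧
      Linked (fun u v => (u, v) ∈ D) X' Y ∧ m ≤ X'.ncard := by
  induction n using Nat.strong_induction_on with
  | _ n ih =>
  intro D S hn hC
  by_cases c1 : ∃ e ∈ D, Cond M X m (D.erase e) S
  · obtain ⟨e, he, h⟩ := c1
    obtain ⟨X', h1, Y, h2, h3, h4⟩ := ih _ (by rw [← hn, ← Finset.card_erase_add_one he]; omega)
      _ _ rfl h
    exact ⟨X', h1, Y, h2, h3.mono fun u v h => Finset.mem_of_mem_erase h, h4⟩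
  by_cases c2 : ∃ e ∈ S, Cond M X m D (S.erase e)
  · obtain ⟨e, he, h⟩ := c2
    exact ih _ (by rw [← hn, ← Finset.card_erase_add_one he]; omega) _ _ rfl h
  simp only [Cond, not_exists, not_and, not_forall, not_le, exists_prop] at c1 c2
  have crit : ∀ u v, (u, v) ∈ D → ∃ Z R : Finset ℕ, X ⊆ Z ∧ (∀ e ∈ D, e ≠ (u, v) → e.1 ∈ R → e.2 ∈ Z) ∧
      u ∈ R ∧ (Z \ R).card + rk M (R ∩ S) < m := fun u v h => by
    obtain ⟨Z, R, a, b, c⟩ := c1 _ h
    refine ⟨Z, R, a, fun e he hne => b e (Finset.mem_erase.2 ⟨hne, he⟩), ?_, c⟩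
    by_contra hu
    refine c.not_ge (hC Z R a fun e he hR => b e (Finset.mem_erase.2 ⟨?_, he⟩) hR)
    rintro rfl
    exact hu hR
  have hD : ∀ u v w, (u, v) ∈ D → (u, w) ∈ D → v = w := fun u v w hv hw => by
    by_contra hne
    obtain ⟨Z, R, a, b, c, d⟩ := crit u v hv
    obtain ⟨Z', R', a', b', c', d'⟩ := crit u w hw
    have p := hC (Z ∪ Z') (R ∪ R') (a.trans Finset.subset_union_left) fun e he hR => by
      by_cases e1 : e = (u, v)
      · exact Finset.mem_union_right _ (b' e he (by simp [e1, hne]) (e1 ▸ c'))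
      by_cases e2 : e = (u, w)
      · exact Finset.mem_union_left _ (b e he e1 (e2 ▸ c))
      exact (Finset.mem_union.1 hR).elim (fun h => Finset.mem_union_left _ (b e he e1 h))
        fun h => Finset.mem_union_right _ (b' e he e2 h)
    have q := hC (Z ∩ Z') ((R ∩ R').erase u) (Finset.subset_inter a a') fun e he hR => by
      simp only [Finset.mem_erase, Finset.mem_inter] at hR ⊢
      exact ⟨b e he (fun h => hR.1 (by rw [h])) hR.2.1, b' e he (fun h => hR.1 (by rw [h])) hR.2.2⟩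
    have s := rk_sub hM (R ∩ S) (R' ∩ S)
    have t := card_cross Z R Z' R' u
    have m1 := rk_mono hM (a := ((R ∩ R').erase u : Finset ℕ) ∩ S) (b := R ∩ S ∩ (R' ∩ S))
      fun x => by simp; tauto
    rw [← union_inter_distrib_right, ← Finset.coe_union] at s
    omega
  have hS : ∀ u ∈ S, ∀ v, (u, v) ∉ D := fun u hu v hv => by
    obtain ⟨Z, R, a, b, c, d⟩ := crit u v hv
    obtain ⟨Z', R', a', b', d'⟩ := c2 u hu
    have c' : u ∈ R' := by
      by_contra h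
      refine d'.not_ge (le_trans (hC Z' R' a' b') (le_of_eq ?_))
      congr 2
      ext x
      by_cases e : x = u <;> simp [e, h]
    have p := hC (Z ∪ Z') (R ∪ R') (a.trans Finset.subset_union_left) fun e he hR => by
      by_cases e1 : e = (u, v)
      · exact Finset.mem_union_right _ (b' e he (e1 ▸ c'))
      exact (Finset.mem_union.1 hR).elim (fun h => Finset.mem_union_left _ (b e he e1 h))
        fun h => Finset.mem_union_right _ (b' e he h)
    have q := hC (Z ∩ Z') ((R ∩ R').erase u) (Finset.subset_inter a a') fun e he hR => by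
      simp only [Finset.mem_erase, Finset.mem_inter] at hR ⊢
      exact ⟨b e he (fun h => hR.1 (by rw [h])) hR.2.1, b' e he hR.2.2⟩
    have s := rk_sub hM (R ∩ S) (R' ∩ S.erase u)
    have t := card_cross Z R Z' R' u
    have m1 := rk_mono hM (a := ((R ∩ R').erase u : Finset ℕ) ∩ S) (b := R ∩ S ∩ (R' ∩ S.erase u))
      fun x => by simp; tauto
    have m2 := rk_mono hM (a := (R ∪ R' : Finset ℕ) ∩ S) (b := R ∩ S ∪ (R' ∩ S.erase u))
      fun x => by by_cases e : x = u <;> simp [e, c, hu]; tauto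
    omega
  let R := (X ∪ D.image Prod.snd).filter fun y =>
    ∃ x ∈ X, Relation.ReflTransGen (fun u v => (u, v) ∈ D) x y
  have p := hC R R (fun x hx => Finset.mem_filter.2 ⟨Finset.mem_union_left _ hx, x, hx, .refl⟩)
    fun e he hR => by
      obtain ⟨x, hx, h⟩ := (Finset.mem_filter.1 hR).2
      exact Finset.mem_filter.2 ⟨Finset.mem_union_right _ (Finset.mem_image_of_mem _ he), x, hx,
        h.tail he⟩
  obtain ⟨Y, hY⟩ := M.exists_isBasis' (R ∩ S)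
  obtain ⟨X', h1, h2, h3⟩ := link_of hD (X := X) (Y := Y) (fun y hy => hS y (hY.subset hy).2)
    (fun y hy => (Finset.mem_filter.1 (hY.subset hy).1).2)
  refine ⟨X', h1, Y, hY.indep, h2, ?_⟩
  rw [rk_basis hY] at p
  simp at p
  omega

end Pool.Agent.H.MP_9f00ad_co
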