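import Pool.Agent.H.MP_9f00ad_co.D

namespace Pool.Agent.H.MP_9f00ad_co

open Set Matroid
open scoped Classical

def Bs (n s : ℕ) (B : Set ℕ) : Prop :=
  ∃ x y z, (x ≠ y ∧ x ≠ z ∧ y ≠ z ∧ x + y + z ≠ s) ∧ x < n ∧ y < n ∧ z < n ∧ B = {x, y, z}

lemma Bs.rot {n s e : ℕ} {B : Set ℕ} (h : Bs n s B) (he : e ∈ B) :
    ∃ p q, p ≠ q ∧ e ≠ p ∧ e ≠ q ∧ p < n ∧ q < n ∧ B = {e, p, q} := by
  obtain ⟨x, y, z, h1, h2, h3, h4, rfl⟩ := h
  rcases he with rfl | rfl | rfl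
  · exact ⟨y, z, by omega, by omega, by omega, h3, h4, rfl⟩
  · exact ⟨x, z, by omega, by omega, by omega, h2, h4, insert_comm _ _ _⟩
  · exact ⟨x, y, by omega, by omega, by omega, h2, h3, by ext; simp; tauto⟩

noncomputable def mat (N : ℕ) : Matroid ℕ :=
  .ofIsBaseOfFinite (finite_Iio (5 * N + 5)) (Bs (5 * N + 5) (5 * N + 5))
    ⟨{0, 1, 2}, 0, 1, 2, by omega, by omega, by omega, by omega, rfl⟩
    (fun X Y hX hY e ⟨a, b⟩ => by
      obtain ⟨p, q, h1, h2, h3, h4, h5, rfl⟩ := hX.rot a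
      obtain ⟨u, v, w, k1, k2, k3, k4, rfl⟩ := hY
      simp only [mem_insert_iff, mem_singleton_iff, not_or] at b
      have : ∃ f, (f = u ∨ f = v ∨ f = w) ∧ f ≠ p ∧ f ≠ q ∧ f + p + q ≠ 5 * N + 5 := by
        simp only [exists_eq_or_imp, exists_eq_left]
        omega
      obtain ⟨f, f1, f2, f3, f4⟩ := this
      refine ⟨f, ⟨f1, by simp; omega⟩, f, p, q, by omega, by omega, h4, h5, ?_⟩
      ext
      simp
      omega)
    (by
      rintro _ ⟨x, y, z, -, h2, h3, h4, rfl⟩ v (rfl | rfl | rfl) <;> assumption)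

lemma mat_base {N : ℕ} {B : Set ℕ} : (mat N).IsBase B ↔ Bs (5 * N + 5) (5 * N + 5) B := Iff.rfl

lemma mat_E (N : ℕ) : (mat N).E = Iio (5 * N + 5) := rfl

def Ok (s a b c : ℕ) : Prop := a ≠ b ∧ a ≠ c ∧ b ≠ c ∧ a + b + c ≠ s
def Bad (s a b c u v w : ℕ) : Prop := u = b ∨ u = c ∨ u + b + c = s ∨ a + v + w = s

section
variable {s a b c u v w : ℕ}

lemma Ok.s1 (h : Ok s a b c) : Ok s a c b := ⟨h.2.1, h.1, h.2.2.1.symm, fun e => h.2.2.2 (by omega)⟩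
lemma Ok.s2 (h : Ok s a b c) : Ok s b a c := ⟨h.1.symm, h.2.2.1, h.2.1, fun e => h.2.2.2 (by omega)⟩
lemma Bad.s1 (h : Bad s a b c u v w) : Bad s a c b u v w := by unfold Bad at *; omega
lemma Bad.s2 (h : Bad s a b c u v w) : Bad s a b c u w v := by unfold Bad at *; omega

lemma row (h1 : Ok s a b c) (h2 : Ok s u v w) (p : Bad s a b c u v w) (q : Bad s a b c v u w)
    (r : Bad s a b c w u v) : False := by
  rcases p with p | p | p | p <;> rcases q with q | q | q | q <;> rcases r with r | r | r | r <;>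
  first
    | exact h1.1 (by omega) | exact h1.2.1 (by omega) | exact h1.2.2.1 (by omega)
    | exact h1.2.2.2 (by omega) | exact h2.1 (by omega) | exact h2.2.1 (by omega)
    | exact h2.2.2.1 (by omega) | exact h2.2.2.2 (by omega)

lemma col (h1 : Ok s a b c) (h2 : Ok s u v w) (p : Bad s a b c u v w) (q : Bad s b a c u v w)
    (r : Bad s c a b u v w) : False := by
  rcases p with p | p | p | p <;> rcases q with q | q | q | q <;> rcases r with r | r | r | r <;>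
  first
    | exact h1.1 (by omega) | exact h1.2.1 (by omega) | exact h1.2.2.1 (by omega)
    | exact h1.2.2.2 (by omega) | exact h2.1 (by omega) | exact h2.2.1 (by omega)
    | exact h2.2.2.1 (by omega) | exact h2.2.2.2 (by omega)

lemma blk (h1 : Ok s a b c) (h2 : Ok s u v w) (p : Bad s a b c u v w) (q : Bad s a b c v u w)
    (r : Bad s b a c u v w) (t : Bad s b a c v u w) : False := by
  rcases p with p | p | p | p <;> rcases q with q | q | q | q <;> rcases r with r | r | r | r <;>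
    rcases t with t | t | t | t <;>
  first
    | exact h1.1 (by omega) | exact h1.2.1 (by omega) | exact h1.2.2.1 (by omega)
    | exact h1.2.2.2 (by omega) | exact h2.1 (by omega) | exact h2.2.1 (by omega)
    | exact h2.2.2.1 (by omega) | exact h2.2.2.2 (by omega)

lemma pa (P1 P2 P3 Q1 Q2 Q3 R1 R2 R3 : Prop) (k1 : P1 ∨ Q2 ∨ R3) (k2 : P1 ∨ Q3 ∨ R2)
    (k3 : P2 ∨ Q1 ∨ R3) (k4 : P2 ∨ Q3 ∨ R1) (k5 : P3 ∨ Q1 ∨ R2) (k6 : P3 ∨ Q2 ∨ R1) :
    (P1 ∧ P2 ∧ P3) ∨ (Q1 ∧ Q2 ∧ Q3) ∨ (R1 ∧ R2 ∧ R3) ∨ (P1 ∧ Q1 ∧ R1) ∨ (P2 ∧ Q2 ∧ R2) ∨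
      (P3 ∧ Q3 ∧ R3) ∨ (P1 ∧ P2 ∧ Q1 ∧ Q2) ∨ (P1 ∧ P3 ∧ Q1 ∧ Q3) ∨ (P2 ∧ P3 ∧ Q2 ∧ Q3) ∨
      (P1 ∧ P2 ∧ R1 ∧ R2) ∨ (P1 ∧ P3 ∧ R1 ∧ R3) ∨ (P2 ∧ P3 ∧ R2 ∧ R3) ∨
      (Q1 ∧ Q2 ∧ R1 ∧ R2) ∨ (Q1 ∧ Q3 ∧ R1 ∧ R3) ∨ (Q2 ∧ Q3 ∧ R2 ∧ R3) := by
  by_cases P1 <;> by_cases P2 <;> by_cases P3 <;> by_cases Q1 <;> by_cases Q2 <;>
    by_cases Q3 <;> simp_all

lemma key {x y z : ℕ} (h1 : Ok s a b c) (h2 : Ok s x y z) (p : ¬ Bad s a b c x y z)
    (q : ¬ Bad s b a c y x z) (r : ¬ Bad s c a b z x y) : ∀ p q r, (p = a ∨ p = x) →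
      (q = b ∨ q = y) → (r = c ∨ r = z) → Ok s p q r := by
  simp only [Bad, not_or] at p q r
  obtain ⟨p1, p2, p3, p4⟩ := p
  obtain ⟨q1, q2, q3, q4⟩ := q
  obtain ⟨r1, r2, r3, r4⟩ := r
  rintro _ _ _ (rfl | rfl) (rfl | rfl) (rfl | rfl)
  exacts [h1, ⟨h1.1, Ne.symm r1, Ne.symm r2, fun e => r3 (by clear * - e; omega)⟩,
    ⟨Ne.symm q1, h1.2.1, q2, fun e => q3 (by clear * - e; omega)⟩,
    ⟨Ne.symm q1, Ne.symm r1, h2.2.2.1, p4⟩, ⟨p1, p2, h1.2.2.1, p3⟩,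
    ⟨p1, h2.2.1, Ne.symm r2, fun e => q4 (by clear * - e; omega)⟩,
    ⟨h2.1, p2, q2, fun e => r4 (by clear * - e; omega)⟩, h2]

lemma perm (h1 : Ok s a b c) (h2 : Ok s u v w) :
    ∃ x y z, ({u, v, w} : Set ℕ) = {x, y, z} ∧ ∀ p q r, (p = a ∨ p = x) → (q = b ∨ q = y) →
      (r = c ∨ r = z) → Ok s p q r := by
  by_contra hc
  have k : ∀ x y z, ({u, v, w} : Set ℕ) = {x, y, z} → Ok s x y z →
      Bad s a b c x y z ∨ Bad s b a c y x z ∨ Bad s c a b z x y := fun x y z e h => by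
    by_contra h'
    push Not at h'
    exact hc ⟨x, y, z, e, key h1 h h'.1 h'.2.1 h'.2.2⟩
  rcases pa (Bad s a b c u v w) (Bad s a b c v u w) (Bad s a b c w u v) (Bad s b a c u v w)
    (Bad s b a c v u w) (Bad s b a c w u v) (Bad s c a b u v w) (Bad s c a b v u w)
    (Bad s c a b w u v) (k u v w rfl h2)
    ((k u w v (by ext; simp; tauto) h2.s1).imp_left .s2)
    ((k v u w (by ext; simp; tauto) h2.s2).imp_right (.imp_right .s2))
    ((k v w u (by ext; simp; tauto) h2.s2.s1).imp .s2 (.imp_left .s2))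
    ((k w u v (by ext; simp; tauto) h2.s1.s2).imp_right (.imp .s2 .s2))
    ((k w v u (by ext; simp; tauto) h2.s2.s1.s2).imp .s2 (.imp .s2 .s2)) with
    ⟨p, q, r⟩ | ⟨p, q, r⟩ | ⟨p, q, r⟩ | ⟨p, q, r⟩ | ⟨p, q, r⟩ | ⟨p, q, r⟩ | ⟨p, q, r, t⟩ |
    ⟨p, q, r, t⟩ | ⟨p, q, r, t⟩ | ⟨p, q, r, t⟩ | ⟨p, q, r, t⟩ | ⟨p, q, r, t⟩ | ⟨p, q, r, t⟩ |
    ⟨p, q, r, t⟩ | ⟨p, q, r, t⟩
  exacts [row h1 h2 p q r, row h1.s2 h2 p q r, row h1.s1.s2 h2 p q r, col h1 h2 p q r,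
    col h1 h2.s2 p q r, col h1 h2.s1.s2 p q r, blk h1 h2 p q r t, blk h1 h2.s1 p.s2 q r.s2 t,
    blk h1 h2.s2.s1 p.s2 q.s2 r.s2 t.s2, blk h1.s1 h2 p.s1 q.s1 r t,
    blk h1.s1 h2.s1 p.s1.s2 q.s1 r.s2 t, blk h1.s1 h2.s2.s1 p.s1.s2 q.s1.s2 r.s2 t.s2,
    blk h1.s2.s1 h2 p.s1 q.s1 r.s1 t.s1, blk h1.s2.s1 h2.s1 p.s1.s2 q.s1 r.s1.s2 t.s1,
    blk h1.s2.s1 h2.s2.s1 p.s1.s2 q.s1.s2 r.s1.s2 t.s1.s2]

end

lemma mat_sbo {N : ℕ} {B₁ B₂ : Set ℕ} (h1 : (mat N).IsBase B₁) (h2 : (mat N).IsBase B₂) :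
    ∃ φ : ℕ → ℕ, BijOn φ B₁ B₂ ∧ ∀ X ⊆ B₁, (mat N).IsBase (B₁ \ X ∪ φ '' X) := by
  obtain ⟨a, b, c, k1, k2, k3, k4, rfl⟩ := h1
  obtain ⟨u, v, w, l1, l2, l3, l4, rfl⟩ := h2
  obtain ⟨x, y, z, e, h⟩ := perm k1 l1
  have lt : ∀ t ∈ ({x, y, z} : Set ℕ), t < 5 * N + 5 := by
    rw [← e]
    rintro t (rfl | rfl | rfl) <;> assumption
  have hx := lt x (by simp)
  have hy := lt y (by simp)
  have hz := lt z (by simp)
  have d := h x y z (.inr rfl) (.inr rfl) (.inr rfl)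
  let φ : ℕ → ℕ := fun t => if t = a then x else if t = b then y else z
  have fa : φ a = x := by simp [φ]
  have fb : φ b = y := by simp [φ, k1.1.symm]
  have fc : φ c = z := by simp [φ, k1.2.1.symm, k1.2.2.1.symm]
  clear_value φ
  refine ⟨φ, e ▸ ⟨?_, ?_, ?_⟩, fun X hX => ⟨if a ∈ X then x else a, if b ∈ X then y else b,
    if c ∈ X then z else c, h _ _ _ (by split_ifs <;> simp) (by split_ifs <;> simp)
      (by split_ifs <;> simp), by split_ifs <;> omega, by split_ifs <;> omega,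
      by split_ifs <;> omega, ?_⟩⟩
  · rintro t (rfl | rfl | rfl) <;> simp [fa, fb, fc]
  · obtain ⟨d1, d2, d3, -⟩ := d
    rintro t (rfl | rfl | rfl) r (rfl | rfl | rfl) <;> simp [fa, fb, fc, d1, d2, d3, d1.symm,
      d2.symm, d3.symm]
  · rintro t (rfl | rfl | rfl)
    exacts [⟨a, by simp, fa⟩, ⟨b, by simp, fb⟩, ⟨c, by simp, fc⟩]
  · ext t
    constructor
    · rintro (⟨rfl | rfl | rfl, h0⟩ | ⟨r, hr, rfl⟩)
      · simp [h0]
      · simp [h0]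
      · simp [h0]
      · rcases hX hr with rfl | rfl | rfl <;> simp [hr, fa, fb, fc]
    · rintro (rfl | rfl | rfl) <;> split_ifs with hh
      exacts [.inr ⟨a, hh, fa⟩, .inl ⟨by simp, hh⟩, .inr ⟨b, hh, fb⟩, .inl ⟨by simp, hh⟩,
        .inr ⟨c, hh, fc⟩, .inl ⟨by simp, hh⟩]

lemma mat_pair {N p q : ℕ} (hp : p < 5 * N + 5) (hq : q < 5 * N + 5) (h : p ≠ q) :
    (mat N).Indep {p, q} := by
  have : ∃ r, (r = 0 ∨ r = 1 ∨ r = 2 ∨ r = 3) ∧ r ≠ p ∧ r ≠ q ∧ r + p + q ≠ 5 * N + 5 := by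
    simp only [exists_eq_or_imp, exists_eq_left]
    omega
  obtain ⟨r, r1, r2⟩ := this
  exact (mat_base.2 ⟨r, p, q, by omega, by omega, hp, hq, rfl⟩).indep.subset (subset_insert _ _)

lemma not_good (k : ℕ) : ¬ Good k (mat (10 * k + 1)) := by
  set N := 10 * k + 1 with hN
  rintro ⟨hf, h⟩
  have h2 : ∀ p ∈ Finset.range (5 * N + 5), ∀ q ∈ Finset.range (5 * N + 5), p ≠ q →
      rk (mat N) {p, q} = 2 := fun p hp q hq e => by
    rw [rk_indep (mat_pair (Finset.mem_range.1 hp) (Finset.mem_range.1 hq) e), ncard_pair e]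
    rfl
  have := core h (rk_mono hf) (by simp [rk]) (Finset.range (5 * N + 5))
    (Finset.range N ×ˢ Finset.range N) (fun j => j.1) (fun j => N + j.2)
    (fun j => 4 * N + 5 - j.1 - j.2) (fun j hj => by simp at hj ⊢; omega)
    (fun j hj => by simp at hj ⊢; omega) (fun p hp => by
      rw [Finset.mem_range] at hp
      have : (mat N).Indep {p} := by
        by_cases e : p = 0
        · exact (mat_pair (q := 1) hp (by omega) (by omega)).subset (by simp)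
        · exact (mat_pair (q := 0) hp (by omega) e).subset (by simp)
      simp [rk_indep this]) h2 (fun j hj => by
      simp only [Finset.mem_product, Finset.mem_range] at hj
      refine le_antisymm ?_ ((h2 j.1 (by simp; omega) (N + j.2) (by simp; omega)
        (by omega)).ge.trans (rk_mono hf (insert_subset_insert (by simp))))
      obtain ⟨I, hI⟩ := (mat N).exists_isBasis' {j.1, N + j.2, 4 * N + 5 - j.1 - j.2}
      have c3 : ({j.1, N + j.2, 4 * N + 5 - j.1 - j.2} : Set ℕ).ncard ≤ 3 :=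
        (ncard_eq_three.2 ⟨_, _, _, by omega, by omega, by omega, rfl⟩).le
      have := ncard_lt_ncard (hI.subset.ssubset_of_ne fun e => by
        obtain ⟨B, ⟨x, y, z, b1, -, -, -, rfl⟩, hB⟩ := hI.indep.exists_isBase_superset
        rw [e] at hB
        simp only [insert_subset_iff, singleton_subset_iff, mem_insert_iff,
          mem_singleton_iff] at hB
        omega) (toFinite _)
      rw [rk_basis hI]
      omega) (fun j hj i hi e => by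
      simp only [Finset.mem_product, Finset.mem_range] at hj hi
      have : ∃ d, (d = i.1 ∨ d = N + i.2) ∧ j.1 ≠ N + j.2 ∧ j.1 ≠ d ∧ N + j.2 ≠ d ∧
          j.1 + (N + j.2) + d ≠ 5 * N + 5 := by
        rw [Ne, Prod.ext_iff] at e
        simp only [exists_eq_or_imp, exists_eq_left]
        omega
      obtain ⟨d, d1, d2⟩ := this
      have b := (mat_base.2 ⟨j.1, N + j.2, d, d2, by omega, by omega, by omega, rfl⟩).indep
      refine le_trans ?_ (rk_ge hf b (by rintro t (rfl | rfl | rfl) <;> simp; tauto))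
      rw [ncard_eq_three.2 ⟨_, _, _, d2.1, d2.2.1, d2.2.2.1, rfl⟩]
      rfl)
  simp only [Finset.card_product, Finset.card_range] at this
  nlinarith

end Pool.Agent.H.MP_9f00ad_co
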